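import Pool.Agent.U14.UF.Jobs

set_option autoImplicit false

namespace Pool.Agent.U14.UF

open R4

theorem ev_add (l t : ℝ) (x y : R4) : ev l t (x + y) = ev l t x + ev l t y := by
  simp only [ev, add_a, add_b, add_c, add_d]; push_cast; ring

theorem ev_one (l t : ℝ) : ev l t 1 = 1 := by simp [ev]

theorem ev_mul {l t : ℝ} (hl : l ^ 2 = 2 * l + 1) (ht : t ^ 2 = t + 1) (x y : R4) :
    ev l t (x * y) = ev l t x * ev l t y := by
  simp only [ev, mul_a, mul_b, mul_c, mul_d]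
  push_cast
  linear_combination (-(x.b * y.b + l * (x.b * y.d + x.d * y.b) + (2 * l + 1) * (x.d * y.d)) : ℝ) * ht +
    (-((x.c + x.d * t) * (y.c + y.d * t)) : ℝ) * hl

theorem ev_pow {l t : ℝ} (hl : l ^ 2 = 2 * l + 1) (ht : t ^ 2 = t + 1) (x : R4) (n : ℕ) :
    ev l t (x ^ n) = ev l t x ^ n := by
  induction n with
  | zero => simp [ev_one]
  | succ n ih => rw [pow_succ, ev_mul hl ht, ih, pow_succ]

theorem ev_ofNat (l t : ℝ) (n : ℕ) [n.AtLeastTwo] : ev l t (OfNat.ofNat n) = OfNat.ofNat n := by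
  simp [ev]

/-- roots exist -/
theorem rt_exists : ∃ l t : ℝ, l ^ 2 = 2 * l + 1 ∧ t ^ 2 = t + 1 := by
  refine ⟨1 + √2, (1 + √5) / 2, ?_, ?_⟩
  · have := Real.sq_sqrt (show (0 : ℝ) ≤ 2 by norm_num)
    nlinarith
  · have := Real.sq_sqrt (show (0 : ℝ) ≤ 5 by norm_num)
    nlinarith

theorem pos_ne {x : R4} (h : Pos x) : x ≠ 0 := by
  rintro rfl
  obtain ⟨l, t, hl, ht⟩ := rt_exists
  have := h l t hl ht
  simp [ev] at this

theorem pos_mul {x y : R4} (hx : Pos x) (hy : Pos y) : Pos (x * y) := by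
  intro l t hl ht
  rw [ev_mul hl ht]
  exact mul_pos (hx l t hl ht) (hy l t hl ht)

theorem pos_add {x y : R4} (hx : Pos x) (hy : Pos y) : Pos (x + y) := by
  intro l t hl ht
  rw [ev_add]
  exact add_pos (hx l t hl ht) (hy l t hl ht)

theorem pos_one : Pos 1 := by
  intro l t hl ht
  rw [ev_one]; norm_num

theorem pos_four : Pos 4 := by
  intro l t hl ht
  rw [ev_ofNat]; norm_num

/-- from `x * y` and `x` totally positive -/
theorem pos_of_mul {x y : R4} (hx : Pos x) (hxy : Pos (x * y)) : Pos y := by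
  intro l t hl ht
  have h1 := hx l t hl ht
  have h2 := hxy l t hl ht
  rw [ev_mul hl ht] at h2
  exact (mul_pos_iff_of_pos_left h1).1 h2

theorem vpi_ne : vpi ≠ 0 := by decide

theorem asm (kb : S_KB) (dir : S_DIR) (tr : S_TR) (mil : S_MIL) (rec : S_REC) (theta : S_THETA)
    (lat : S_THETA → S_LAT) (cnt : S_CNT) (grp : S_GRP) (gf : S_GF) (fr : S_FR) (e : S_E)
    (dom : ∀ x y : R4, x * y = 0 → x = 0 ∨ y = 0) : S_FIN := by
  obtain ⟨tr1, tr2⟩ := tr kb
  refine tr2 ?_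
  intro α hα
  have hR := rec mil
  obtain ⟨π, hπ, hpr, m, hm⟩ := tr1 dir (4 * α * vpi) (by
    intro h0
    rcases dom _ _ h0 with h1 | h1
    · exact pos_ne (pos_mul pos_four hα) h1
    · exact vpi_ne h1)
  obtain ⟨B0, C, hC⟩ := hR α π hα hπ hpr ⟨vpi * m, by rw [hm]; ring⟩
  set A : R4 := vpi * m with hA
  have hAe : 4 * α * A = π + 1 := by rw [hm, hA]; ring
  have hAp : Pos A := by
    apply pos_of_mul (pos_mul pos_four hα)
    rw [hAe]
    exact pos_add hπ pos_one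
  set B : R4 := B0 * (1 + π) with hB
  -- `1 + α B² = π C'`
  obtain ⟨C', hC'⟩ : ∃ C' : R4, 1 + α * B ^ 2 = π * C' :=
    ⟨C + α * B0 ^ 2 * (2 + π), by rw [hB]; linear_combination hC⟩
  have hCp : Pos C' := by
    apply pos_of_mul hπ
    rw [← hC']
    intro l t hl ht
    rw [ev_add, ev_one, ev_mul hl ht, ev_pow hl ht]
    have := hα l t hl ht
    positivity
  have hrel : α * (4 * A * C' - B ^ 2) - C' = 1 := by
    linear_combination C' * hAe - hC'
  have hB' : vpi ∣ B := ⟨4 * α * m * B0, by rw [hB]; linear_combination B0 * hm⟩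
  have hcard := cnt A B C' α hAp hCp hα hrel ⟨m, rfl⟩ hB' (lat theta A B C' α hAp hCp hα hrel)
  obtain ⟨i, j, hi, hj, hji⟩ := gf grp A B C' α hAp hCp hα hrel hcard
  obtain ⟨X, Y, Z, hXYZ⟩ := fr A B C' α hAp hCp hα hrel i j hi hj hji ⟨-(α * B), 1, 0, 2 * α⟩ (by
    simp only [Qt.trd]; ring)
  refine e α X Y Z ?_
  rw [hXYZ]
  simp only [Qt.nrd]
  linear_combination 4 * α * hrel

end Pool.Agent.U14.UF
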