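import Pool.Agent.U14.UF.Asm

set_option autoImplicit false

/-!
# Project UF: basic facts on `R4`
-/

namespace Pool.Agent.U14.UF

open R4

@[simp] theorem on_a (n : ℕ) [n.AtLeastTwo] : (ofNat(n) : R4).a = OfNat.ofNat n := ofNat_a n
@[simp] theorem on_b (n : ℕ) [n.AtLeastTwo] : (ofNat(n) : R4).b = 0 := ofNat_b n
@[simp] theorem on_c (n : ℕ) [n.AtLeastTwo] : (ofNat(n) : R4).c = 0 := ofNat_c n
@[simp] theorem on_d (n : ℕ) [n.AtLeastTwo] : (ofNat(n) : R4).d = 0 := ofNat_d n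

theorem ev_on (l t : ℝ) (n : ℕ) [n.AtLeastTwo] : ev l t (ofNat(n)) = OfNat.ofNat n := ev_ofNat l t n

theorem s2_sq : s2 * s2 = 2 := by decide

theorem s2_dvd_iff (x : R4) : s2 ∣ x ↔ 2 ∣ x.a + x.c ∧ 2 ∣ x.b + x.d := by
  constructor
  · rintro ⟨y, rfl⟩
    simp only [mul_a, mul_b, mul_c, mul_d, s2]
    constructor <;> omega
  · rintro ⟨⟨p, hp⟩, ⟨q, hq⟩⟩
    refine ⟨⟨p - x.a, q - x.b, p, q⟩, ?_⟩
    ext
    · simp only [mul_a, s2]; linarith
    · simp only [mul_b, s2]; linarith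
    · simp only [mul_c, s2]; linarith
    · simp only [mul_d, s2]; linarith

theorem s2_prime_aux (x y : R4) (h : s2 ∣ x * y) : s2 ∣ x ∨ s2 ∣ y := by
  rw [s2_dvd_iff] at h
  rw [s2_dvd_iff, s2_dvd_iff]
  simp only [mul_a, mul_b, mul_c, mul_d] at h
  obtain ⟨h1, h2⟩ := h
  have e1 : (2 : ℤ) ∣ (x.a + x.c) * (y.a + y.c) + (x.b + x.d) * (y.b + y.d) := by
    have : (x.a + x.c) * (y.a + y.c) + (x.b + x.d) * (y.b + y.d) =
      (x.a * y.a + x.b * y.b + (x.c * y.c + x.d * y.d) +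
      (x.a * y.c + x.b * y.d + (x.c * y.a + x.d * y.b) + 2 * (x.c * y.c + x.d * y.d))) -
      2 * (x.c * y.c + x.d * y.d) := by ring
    rw [this]
    exact dvd_sub h1 (dvd_mul_right _ _)
  have e2 : (2 : ℤ) ∣ (x.a + x.c) * (y.b + y.d) + (x.b + x.d) * (y.a + y.c) +
      (x.b + x.d) * (y.b + y.d) := by
    have : (x.a + x.c) * (y.b + y.d) + (x.b + x.d) * (y.a + y.c) + (x.b + x.d) * (y.b + y.d) =
      (x.a * y.b + x.b * y.a + x.b * y.b + (x.c * y.d + x.d * y.c + x.d * y.d) +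
      (x.a * y.d + x.b * y.c + x.b * y.d + (x.c * y.b + x.d * y.a + x.d * y.b) +
        2 * (x.c * y.d + x.d * y.c + x.d * y.d))) - 2 * (x.c * y.d + x.d * y.c + x.d * y.d) := by ring
    rw [this]
    exact dvd_sub h2 (dvd_mul_right _ _)
  generalize x.a + x.c = p at *
  generalize x.b + x.d = q at *
  generalize y.a + y.c = r at *
  generalize y.b + y.d = s at *
  rcases Int.emod_two_eq_zero_or_one p with hp | hp <;>
  rcases Int.emod_two_eq_zero_or_one q with hq | hq <;>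
  rcases Int.emod_two_eq_zero_or_one r with hr | hr <;>
  rcases Int.emod_two_eq_zero_or_one s with hs | hs <;>
  simp [Int.dvd_iff_emod_eq_zero, Int.add_emod, Int.mul_emod, hp, hq, hr, hs] at e1 e2 ⊢

theorem s2_cancel {x : R4} (h : s2 * x = 0) : x = 0 := by
  have h1 : s2 * (s2 * x) = 0 := by rw [h, mul_zero]
  rw [← mul_assoc, s2_sq] at h1
  have ha := congrArg R4.a h1
  have hb := congrArg R4.b h1
  have hc := congrArg R4.c h1
  have hd := congrArg R4.d h1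
  simp only [mul_a, mul_b, mul_c, mul_d, on_a, on_b, on_c, on_d, zero_a, zero_b, zero_c, zero_d]
    at ha hb hc hd
  ext
  · show x.a = 0; omega
  · show x.b = 0; omega
  · show x.c = 0; omega
  · show x.d = 0; omega

theorem split_pow (n : ℕ) : ∀ x y : R4, x * y = 0 → ∃ i j, i + j = n ∧ s2 ^ i ∣ x ∧ s2 ^ j ∣ y := by
  induction n with
  | zero => intro x y _; exact ⟨0, 0, rfl, by simp, by simp⟩
  | succ n ih =>
    intro x y h
    rcases s2_prime_aux x y (by rw [h]; exact dvd_zero _) with ⟨x', rfl⟩ | ⟨y', rfl⟩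
    · obtain ⟨i, j, hij, h1, h2⟩ := ih x' y (s2_cancel (by rw [← mul_assoc]; exact h))
      exact ⟨i + 1, j, by omega, by rw [pow_succ']; exact mul_dvd_mul_left _ h1, h2⟩
    · obtain ⟨i, j, hij, h1, h2⟩ := ih x y' (s2_cancel (by rw [← h]; ring))
      exact ⟨i, j + 1, by omega, h1, by rw [pow_succ']; exact mul_dvd_mul_left _ h2⟩

theorem two_pow_dvd {m : ℕ} {x : R4} (h : s2 ^ (2 * m) ∣ x) :
    (2 : ℤ) ^ m ∣ x.a ∧ (2 : ℤ) ^ m ∣ x.b ∧ (2 : ℤ) ^ m ∣ x.c ∧ (2 : ℤ) ^ m ∣ x.d := by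
  obtain ⟨y, rfl⟩ := h
  have e : s2 ^ (2 * m) * y = (((2 : ℤ) ^ m : ℤ) : R4) * y := by
    rw [pow_mul, pow_two, s2_sq]; push_cast; rfl
  rw [e]
  refine ⟨⟨y.a, ?_⟩, ⟨y.b, ?_⟩, ⟨y.c, ?_⟩, ⟨y.d, ?_⟩⟩ <;>
  simp only [mul_a, mul_b, mul_c, mul_d, intCast_a, intCast_b, intCast_c, intCast_d] <;> ring

theorem eq_zero_of_pow {m : ℕ} {k : ℤ} (h : (2 : ℤ) ^ m ∣ k) (hk : k.natAbs < 2 ^ m) : k = 0 := by
  by_contra h0
  have := Int.natAbs_dvd_natAbs.2 h
  rw [Int.natAbs_pow] at this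
  have h2 := Nat.le_of_dvd (Int.natAbs_pos.2 h0) this
  have : Int.natAbs 2 = 2 := rfl
  rw [this] at h2
  omega

theorem dom_key {m : ℕ} (x : R4) (h3 : (2 : ℤ) ^ m ∣ x.a ∧ (2 : ℤ) ^ m ∣ x.b ∧ (2 : ℤ) ^ m ∣ x.c ∧
    (2 : ℤ) ^ m ∣ x.d) (h : x.a.natAbs + x.b.natAbs + x.c.natAbs + x.d.natAbs < 2 ^ m) : x = 0 := by
  have f1 : x.a = 0 := eq_zero_of_pow h3.1 (by omega)
  have f2 : x.b = 0 := eq_zero_of_pow h3.2.1 (by omega)
  have f3 : x.c = 0 := eq_zero_of_pow h3.2.2.1 (by omega)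
  have f4 : x.d = 0 := eq_zero_of_pow h3.2.2.2 (by omega)
  exact R4.ext f1 f2 f3 f4

theorem dom (x y : R4) (h : x * y = 0) : x = 0 ∨ y = 0 := by
  obtain ⟨m, hm⟩ : ∃ m : ℕ, x.a.natAbs + x.b.natAbs + x.c.natAbs + x.d.natAbs + y.a.natAbs +
      y.b.natAbs + y.c.natAbs + y.d.natAbs < 2 ^ m := by
    generalize x.a.natAbs + x.b.natAbs + x.c.natAbs + x.d.natAbs + y.a.natAbs +
      y.b.natAbs + y.c.natAbs + y.d.natAbs = k
    exact ⟨k, Nat.lt_two_pow_self⟩
  obtain ⟨i, j, hij, h1, h2⟩ := split_pow (4 * m) x y h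
  rcases Nat.lt_or_ge i (2 * m) with hi | hi
  · right
    have h3 := two_pow_dvd ((pow_dvd_pow s2 (by omega : 2 * m ≤ j)).trans h2)
    exact dom_key y h3 (by omega)
  · left
    have h3 := two_pow_dvd ((pow_dvd_pow s2 hi).trans h1)
    exact dom_key x h3 (by omega)

instance : Nontrivial R4 := ⟨⟨0, 1, by decide⟩⟩
instance : NoZeroDivisors R4 := ⟨fun {x y} h => dom x y h⟩
instance : IsDomain R4 := NoZeroDivisors.to_isDomain R4

/-- the first coordinate as a positive combination of the embeddings -/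
theorem a_eq (x : R4) : (x.a : ℝ) =
    (2 - √2) / 4 * ((5 - √5) / 10) * ev (1 + √2) ((1 + √5) / 2) x +
    (2 - √2) / 4 * ((5 + √5) / 10) * ev (1 + √2) ((1 - √5) / 2) x +
    (2 + √2) / 4 * ((5 - √5) / 10) * ev (1 - √2) ((1 + √5) / 2) x +
    (2 + √2) / 4 * ((5 + √5) / 10) * ev (1 - √2) ((1 - √5) / 2) x := by
  have h2 := Real.sq_sqrt (show (0 : ℝ) ≤ 2 by norm_num)
  have h5 := Real.sq_sqrt (show (0 : ℝ) ≤ 5 by norm_num)
  simp only [ev]
  generalize √2 = r at *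
  generalize √5 = s at *
  linear_combination ((x.c : ℝ) / 2 - x.d * (s ^ 2 - 5) / 20) * h2 + ((x.b : ℝ) / 10) * h5

theorem hl1 : (1 + √2 : ℝ) ^ 2 = 2 * (1 + √2) + 1 := by
  have := Real.sq_sqrt (show (0 : ℝ) ≤ 2 by norm_num)
  nlinarith

theorem hl2 : (1 - √2 : ℝ) ^ 2 = 2 * (1 - √2) + 1 := by
  have := Real.sq_sqrt (show (0 : ℝ) ≤ 2 by norm_num)
  nlinarith

theorem ht1 : ((1 + √5) / 2 : ℝ) ^ 2 = (1 + √5) / 2 + 1 := by
  have := Real.sq_sqrt (show (0 : ℝ) ≤ 5 by norm_num)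
  nlinarith

theorem ht2 : ((1 - √5) / 2 : ℝ) ^ 2 = (1 - √5) / 2 + 1 := by
  have := Real.sq_sqrt (show (0 : ℝ) ≤ 5 by norm_num)
  nlinarith

theorem sq2_lt : (√2 : ℝ) < 2 := by
  rw [Real.sqrt_lt' (by norm_num)]; norm_num

theorem sq5_lt : (√5 : ℝ) < 5 := by
  rw [Real.sqrt_lt' (by norm_num)]; norm_num

theorem a_pos {x : R4} (h : Pos x) : 0 < x.a := by
  have e := a_eq x
  have p1 := h _ _ hl1 ht1
  have p2 := h _ _ hl1 ht2
  have p3 := h _ _ hl2 ht1
  have p4 := h _ _ hl2 ht2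
  have q1 : (0 : ℝ) < 2 - √2 := by linarith [sq2_lt]
  have q2 : (0 : ℝ) < 2 + √2 := by positivity
  have q3 : (0 : ℝ) < 5 - √5 := by linarith [sq5_lt]
  have q4 : (0 : ℝ) < 5 + √5 := by positivity
  have : (0 : ℝ) < x.a := by
    rw [e]; positivity
  exact_mod_cast this

/-- `Pos` from the four explicit places -/
theorem root_l {l : ℝ} (h : l ^ 2 = 2 * l + 1) : l = 1 + √2 ∨ l = 1 - √2 := by
  have h2 := Real.sq_sqrt (show (0 : ℝ) ≤ 2 by norm_num)
  have : (l - (1 + √2)) * (l - (1 - √2)) = 0 := by linear_combination h - h2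
  rcases mul_eq_zero.1 this with h | h
  · left; linarith
  · right; linarith

theorem root_t {t : ℝ} (h : t ^ 2 = t + 1) : t = (1 + √5) / 2 ∨ t = (1 - √5) / 2 := by
  have h5 := Real.sq_sqrt (show (0 : ℝ) ≤ 5 by norm_num)
  have : (t - (1 + √5) / 2) * (t - (1 - √5) / 2) = 0 := by linear_combination h - h5 / 4
  rcases mul_eq_zero.1 this with h | h
  · left; linarith
  · right; linarith

/-- values of a nonzero element are nonzero -/
theorem ev_ne {x : R4} (hx : x ≠ 0) {l t : ℝ} (hl : l ^ 2 = 2 * l + 1) (ht : t ^ 2 = t + 1) :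
    ev l t x ≠ 0 := by
  intro h0
  have h1 : ev l t (x * adj x) = 0 := by rw [ev_mul hl ht, h0, zero_mul]
  have h2 : x * adj x = ((nm x : ℤ) : R4) := by
    ext
    · simp [nm]
    · simp only [adj, cj1, cj2, mul_a, mul_b, mul_c, mul_d, intCast_b]; ring
    · simp only [adj, cj1, cj2, mul_a, mul_b, mul_c, mul_d, intCast_c]; ring
    · simp only [adj, cj1, cj2, mul_a, mul_b, mul_c, mul_d, intCast_d]; ring
  rw [h2] at h1
  have h3 : (nm x : ℝ) = 0 := by simpa [ev] using h1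
  have h4 : nm x = 0 := by exact_mod_cast h3
  rw [h4, Int.cast_zero] at h2
  have cj1_inj : ∀ y : R4, cj1 y = 0 → y = 0 := by
    intro y hy
    have ha := congrArg R4.a hy
    have hb := congrArg R4.b hy
    have hc := congrArg R4.c hy
    have hd := congrArg R4.d hy
    simp [cj1] at ha hb hc hd
    ext <;> simp <;> omega
  have cj2_inj : ∀ y : R4, cj2 y = 0 → y = 0 := by
    intro y hy
    have ha := congrArg R4.a hy
    have hb := congrArg R4.b hy
    have hc := congrArg R4.c hy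
    have hd := congrArg R4.d hy
    simp [cj2] at ha hb hc hd
    ext <;> simp <;> omega
  rcases dom _ _ h2 with h5 | h5
  · exact hx h5
  · unfold adj at h5
    rcases dom _ _ h5 with h5 | h5
    · rcases dom _ _ h5 with h5 | h5
      · exact hx (cj1_inj _ h5)
      · exact hx (cj2_inj _ h5)
    · exact hx (cj2_inj _ (cj1_inj _ h5))

theorem ev_neg (l t : ℝ) (x : R4) : ev l t (-x) = -ev l t x := by
  simp only [ev, neg_a, neg_b, neg_c, neg_d]; push_cast; ring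

theorem ev_sub (l t : ℝ) (x y : R4) : ev l t (x - y) = ev l t x - ev l t y := by
  rw [sub_eq_add_neg, ev_add, ev_neg, sub_eq_add_neg]

theorem ev_zero (l t : ℝ) : ev l t 0 = 0 := by simp [ev]

theorem mul_adj (x : R4) : x * adj x = ((nm x : ℤ) : R4) := by
  ext
  · simp [nm]
  · simp only [adj, cj1, cj2, mul_a, mul_b, mul_c, mul_d, intCast_b]; ring
  · simp only [adj, cj1, cj2, mul_a, mul_b, mul_c, mul_d, intCast_c]; ring
  · simp only [adj, cj1, cj2, mul_a, mul_b, mul_c, mul_d, intCast_d]; ring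

/-- the reduced norm is totally positive off zero -/
theorem nrd_pos {A B C α : R4} (hC : Pos C) (hα : Pos α) (h : α * (4 * A * C - B ^ 2) - C = 1)
    {p : Qt A B C α} (hp : p ≠ 0) : Pos (Qt.nrd p) := by
  intro l t hl ht
  have h1 := congrArg (ev l t) (Qt.four_nrd h p)
  simp only [ev_mul hl ht, ev_add, ev_sub, ev_pow hl ht, ev_on] at h1
  have hc := hC l t hl ht
  have ha := hα l t hl ht
  by_contra hn
  push Not at hn
  have h2 : 4 * ev l t α * ev l t C * ev l t (Qt.nrd p) ≤ 0 :=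
    mul_nonpos_of_nonneg_of_nonpos (by positivity) hn
  rw [h1] at h2
  have n1 : 0 ≤ ev l t α * ev l t C * (2 * ev l t p.t + ev l t p.y + ev l t B * ev l t p.z) ^ 2 := by
    positivity
  have n2 : 0 ≤ (2 * ev l t α * ev l t C * ev l t p.x - ev l t α * ev l t B * ev l t p.y -
      ev l t C * ev l t p.z) ^ 2 := by positivity
  have n3 : 0 ≤ ev l t α * ev l t p.y ^ 2 := by positivity
  have n4 : 0 ≤ ev l t C * ev l t p.z ^ 2 := by positivity
  have z3 : ev l t α * ev l t p.y ^ 2 = 0 := by linarith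
  have z4 : ev l t C * ev l t p.z ^ 2 = 0 := by linarith
  have y0 : ev l t p.y = 0 := by
    rcases mul_eq_zero.1 z3 with h | h
    · exact absurd h ha.ne'
    · exact pow_eq_zero_iff (two_ne_zero) |>.1 h
  have zz0 : ev l t p.z = 0 := by
    rcases mul_eq_zero.1 z4 with h | h
    · exact absurd h hc.ne'
    · exact pow_eq_zero_iff (two_ne_zero) |>.1 h
  have z2 : (2 * ev l t α * ev l t C * ev l t p.x - ev l t α * ev l t B * ev l t p.y -
      ev l t C * ev l t p.z) ^ 2 = 0 := by linarith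
  have z1 : ev l t α * ev l t C * (2 * ev l t p.t + ev l t p.y + ev l t B * ev l t p.z) ^ 2 = 0 := by
    linarith
  rw [y0, zz0] at z1 z2
  have x0 : ev l t p.x = 0 := by
    have := pow_eq_zero_iff (two_ne_zero) |>.1 z2
    simp only [mul_zero, sub_zero] at this
    rcases mul_eq_zero.1 this with h | h
    · exact absurd h (by positivity)
    · exact h
  have t0 : ev l t p.t = 0 := by
    rcases mul_eq_zero.1 z1 with h | h
    · exact absurd h (by positivity)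
    · have := pow_eq_zero_iff (two_ne_zero) |>.1 h
      simp only [mul_zero, add_zero] at this
      linarith
  apply hp
  ext1
  · by_contra hne; exact ev_ne hne hl ht t0
  · by_contra hne; exact ev_ne hne hl ht x0
  · by_contra hne; exact ev_ne hne hl ht y0
  · by_contra hne; exact ev_ne hne hl ht zz0

theorem nrd_zero {A B C α : R4} : Qt.nrd (0 : Qt A B C α) = 0 := by
  simp [Qt.nrd]

theorem nrd_eq_zero {A B C α : R4} (hC : Pos C) (hα : Pos α) (h : α * (4 * A * C - B ^ 2) - C = 1)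
    {p : Qt A B C α} (hp : Qt.nrd p = 0) : p = 0 := by
  by_contra h0
  exact pos_ne (nrd_pos hC hα h h0) hp

/-- the order has no zero divisors -/
theorem qt_dom {A B C α : R4} (hC : Pos C) (hα : Pos α) (h : α * (4 * A * C - B ^ 2) - C = 1)
    {p q : Qt A B C α} (hpq : p * q = 0) : p = 0 ∨ q = 0 := by
  have h1 := congrArg Qt.nrd hpq
  rw [Qt.nrd_mul, nrd_zero] at h1
  rcases dom _ _ h1 with h2 | h2
  · exact Or.inl (nrd_eq_zero hC hα h h2)
  · exact Or.inr (nrd_eq_zero hC hα h h2)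

end Pool.Agent.U14.UF
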