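import Pool.Agent.U14.UF.Bas

set_option autoImplicit false

/-!
# Project UF, package FR: coordinates with respect to a frame
-/

namespace Pool.Agent.U14.UF

open R4

section ring
variable {S : Type} [Ring S] {i j k v : S}

theorem W_comm (hii : i * i = -1) (hik : i * k = -j) (hij : i * j = k) (hji : j * i = -k)
    (hki : k * i = j) {W : S} (hW : W = v - i * v * i - j * v * j - k * v * k) :
    i * W = W * i := by
  rw [hW]
  have e1 : i * (v - i * v * i - j * v * j - k * v * k) =
      i * v - (i * i) * v * i - (i * j) * v * j - (i * k) * v * k := by noncomm_ring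
  have e2 : (v - i * v * i - j * v * j - k * v * k) * i =
      v * i - i * v * (i * i) - j * v * (j * i) - k * v * (k * i) := by noncomm_ring
  rw [e1, e2, hii, hij, hik, hji, hki]
  noncomm_ring

theorem ring_c3 : (-i) * ((-v) * (-i)) = -(i * v * i) := by noncomm_ring

theorem ring_W2 : v - i * v * i - j * v * j - k * v * k = v - j * v * j - k * v * k - i * v * i := by
  abel

theorem ring_cW {a b c : S} : -v - -a - -b - -c = -(v - a - b - c) := by abel

theorem ring_e1 {W : S} (hW : W = v - i * v * i - j * v * j - k * v * k) (h0 : W = 0) :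
    v = i * v * i + j * v * j + k * v * k := by
  have : v = W + (i * v * i + j * v * j + k * v * k) := by rw [hW]; abel
  rw [h0, zero_add] at this
  exact this

theorem ring_e2 {a b c : S} (h : v = a + b + c) : -v + a + (-v + b) + (-v + c) = -(v + v) := by
  have : -v + a + (-v + b) + (-v + c) = (a + b + c) - (v + v + v) := by abel
  rw [this, ← h]; abel

theorem ring_e3 (h : -k = k) : k + k = 0 := by
  nth_rewrite 1 [← h]; exact neg_add_cancel _

theorem ring_sq {R : Type} [CommRing R] [Algebra R S] (x y z : R) (hi : i * i = -1)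
    (hj : j * j = -1) (hkk : k * k = -1) (hij : i * j = k) (hji : j * i = -k)
    (hik : i * k = -j) (hki : k * i = j) (hjk : j * k = i) (hkj : k * j = -i) :
    (x • i + y • j + z • k) * (x • i + y • j + z • k) =
      -((x ^ 2 + y ^ 2 + z ^ 2) • (1 : S)) := by
  simp only [add_mul, mul_add, smul_mul_smul_comm, hi, hj, hkk, hij, hji, hik, hki, hjk, hkj]
  module

theorem ring_sq2 {R : Type} [CommRing R] [Algebra R S] (n : R) (h1 : v * v = -(n • (1 : S))) :
    (-((2 : R) • v)) * (-((2 : R) • v)) = -((4 * n) • (1 : S)) := by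
  rw [neg_mul_neg, smul_mul_smul_comm, h1]
  module

/-- the frame computation in an abstract quaternion ring -/
theorem frame_abs {R : Type} [CommRing R] [Algebra R S] (cj : S → S) (trd nrd : S → R)
    (c_sub : ∀ p q, cj (p - q) = cj p - cj q) (c_rev : ∀ p q, cj (p * q) = cj q * cj p)
    (a_conj : ∀ p, p + cj p = trd p • (1 : S)) (m_conj : ∀ p, p * cj p = nrd p • (1 : S))
    (fix : ∀ p, cj p = p → ∃ r : R, p = r • (1 : S))
    (dom : ∀ p q : S, p * q = 0 → p = 0 ∨ q = 0) (two : ∀ p : S, (2 : R) • p = 0 → p = 0)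
    (inj : ∀ r s : R, r • (1 : S) = s • (1 : S) → r = s) (one0 : (1 : S) ≠ 0)
    {i j v : S} (hi : i * i = -1) (hj : j * j = -1) (hji : j * i = -(i * j))
    (ci : cj i = -i) (cj' : cj j = -j) (cv : cj v = -v) :
    ∃ X Y Z : R, X ^ 2 + Y ^ 2 + Z ^ 2 = 4 * nrd v := by
  obtain ⟨k, hk⟩ : ∃ k, k = i * j := ⟨_, rfl⟩
  have hij : i * j = k := hk.symm
  rw [hij] at hji
  have hik : i * k = -j := by rw [hk, ← mul_assoc, hi]; simp
  have hkj : k * j = -i := by rw [hk, mul_assoc, hj]; simp
  have hki : k * i = j := by rw [hk, mul_assoc, hji, mul_neg, hik, neg_neg]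
  have hjk : j * k = i := by rw [hk, ← mul_assoc, hji, neg_mul, hkj, neg_neg]
  have hkk : k * k = -1 := by
    calc k * k = i * (j * k) := by rw [← mul_assoc, hij]
      _ = -1 := by rw [hjk, hi]
  have ck : cj k = -k := by
    rw [hk, c_rev, ci, cj', neg_mul_neg, hji, hij]
  have anti : ∀ u : S, cj u = -u → v * u + u * v = trd (v * u) • (1 : S) := by
    intro u hu
    rw [← a_conj (v * u), c_rev, cv, hu, neg_mul_neg]
  have ai := anti i ci
  have aj := anti j cj'
  have ak := anti k ck
  obtain ⟨W, hW⟩ : ∃ W, W = v - i * v * i - j * v * j - k * v * k := ⟨_, rfl⟩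
  have w1 : i * W = W * i := W_comm hi hik hij hji hki hW
  have w2 : j * W = W * j := by
    have e : W = v - j * v * j - k * v * k - i * v * i := hW.trans ring_W2
    exact W_comm hj hji hjk hkj hij e
  have cW : cj W = -W := by
    have c3 : ∀ u : S, cj u = -u → cj (u * v * u) = -(u * v * u) := by
      intro u hu
      rw [c_rev, c_rev, hu, cv]; exact ring_c3
    rw [hW, c_sub, c_sub, c_sub, c3 i ci, c3 j cj', c3 k ck, cv]
    exact ring_cW
  obtain ⟨s, hs⟩ : ∃ s : R, W * j = s • (1 : S) := by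
    apply fix
    rw [c_rev, cj', cW, neg_mul_neg, w2]
  have hWj : W = -(s • j) := by
    have : W * j * j = -W := by rw [mul_assoc, hj]; simp
    rw [hs, smul_mul_assoc, one_mul] at this
    rw [this, neg_neg]
  have h0 : s • k = 0 := by
    apply two
    have h1 := w1
    rw [hWj, mul_neg, neg_mul, mul_smul_comm, smul_mul_assoc, hij, hji] at h1
    rw [two_smul]
    have h2 : s • -k = -(s • k) := smul_neg _ _
    rw [h2] at h1
    have h3 := neg_injective h1
    exact ring_e3 h3.symm
  have W0 : W = 0 := by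
    have h1 : s • j = 0 := by
      rw [← hki, ← smul_mul_assoc, h0, zero_mul]
    rw [hWj, h1, neg_zero]
  have hv1 : v = i * v * i + j * v * j + k * v * k := ring_e1 hW W0
  obtain ⟨x, hx⟩ : ∃ x, x = trd (v * i) := ⟨_, rfl⟩
  obtain ⟨y, hy⟩ : ∃ y, y = trd (v * j) := ⟨_, rfl⟩
  obtain ⟨z, hz⟩ : ∃ z, z = trd (v * k) := ⟨_, rfl⟩
  have step : ∀ u : S, u * u = -1 → v * u + u * v = trd (v * u) • (1 : S) →
      trd (v * u) • u = -v + u * v * u := by
    intro u hu h1
    have : trd (v * u) • u = (trd (v * u) • (1 : S)) * u := by rw [smul_mul_assoc, one_mul]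
    rw [this, ← h1, add_mul, mul_assoc, hu]; simp
  have si : x • i = -v + i * v * i := by rw [hx]; exact step i hi ai
  have sj : y • j = -v + j * v * j := by rw [hy]; exact step j hj aj
  have sk : z • k = -v + k * v * k := by rw [hz]; exact step k hkk ak
  have sum : x • i + y • j + z • k = -((2 : R) • v) := by
    rw [si, sj, sk, two_smul]
    exact ring_e2 hv1
  have sq := ring_sq x y z hi hj hkk hij hji hik hki hjk hkj
  have h1 : v * v = -(nrd v • (1 : S)) := by
    have := m_conj v
    rw [cv, mul_neg] at this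
    rw [← this, neg_neg]
  rw [sum, ring_sq2 _ h1] at sq
  exact ⟨x, y, z, (inj _ _ (neg_injective sq)).symm⟩

end ring

section
variable {A B C α : R4}

theorem cst_inj {r s : R4} (h : (Qt.cst r : Qt A B C α) = Qt.cst s) : r = s := congrArg Qt.t h

theorem conj_eq (p : Qt A B C α) : Qt.conj p = Qt.cst (Qt.trd p) - p := by
  rw [← Qt.add_conj p]; abel

theorem conj_conj (p : Qt A B C α) : Qt.conj (Qt.conj p) = p := by
  ext1 <;> simp only [Qt.conj] <;> ring

theorem conj_add (p q : Qt A B C α) : Qt.conj (p + q) = Qt.conj p + Qt.conj q := by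
  ext1 <;> simp only [Qt.conj, Qt.add_t, Qt.add_x, Qt.add_y, Qt.add_z] <;> ring

theorem conj_neg (p : Qt A B C α) : Qt.conj (-p) = -Qt.conj p := by
  ext1 <;> simp only [Qt.conj, Qt.neg_t, Qt.neg_x, Qt.neg_y, Qt.neg_z] <;> ring

theorem conj_sub (p q : Qt A B C α) : Qt.conj (p - q) = Qt.conj p - Qt.conj q := by
  rw [sub_eq_add_neg, conj_add, conj_neg, sub_eq_add_neg]

theorem self_of_add_self {r : R4} (h : -r = r) : r = 0 := by
  have ha := congrArg R4.a h
  have hb := congrArg R4.b h
  have hc := congrArg R4.c h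
  have hd := congrArg R4.d h
  simp only [neg_a, neg_b, neg_c, neg_d] at ha hb hc hd
  refine R4.ext ?_ ?_ ?_ ?_
  · show r.a = 0; omega
  · show r.b = 0; omega
  · show r.c = 0; omega
  · show r.d = 0; omega

/-- elements fixed by the involution are central constants -/
theorem conj_fix {p : Qt A B C α} (h : Qt.conj p = p) : p = Qt.cst p.t := by
  have hx := self_of_add_self (congrArg Qt.x h)
  have hy := self_of_add_self (congrArg Qt.y h)
  have hz := self_of_add_self (congrArg Qt.z h)
  ext1
  · rfl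
  · exact hx
  · exact hy
  · exact hz

theorem conj_of_trd {p : Qt A B C α} (h : Qt.trd p = 0) : Qt.conj p = -p := by
  rw [conj_eq, h]
  have : (Qt.cst 0 : Qt A B C α) = 0 := rfl
  rw [this, zero_sub]

theorem trd_of_conj {p : Qt A B C α} (h : Qt.conj p = -p) : Qt.trd p = 0 := by
  have h1 := Qt.add_conj p
  rw [h, add_neg_cancel] at h1
  exact (congrArg Qt.t h1).symm

theorem cst_zero : (Qt.cst 0 : Qt A B C α) = 0 := rfl
theorem cst_one : (Qt.cst 1 : Qt A B C α) = 1 := rfl

theorem cst_add (r s : R4) : (Qt.cst (r + s) : Qt A B C α) = Qt.cst r + Qt.cst s := by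
  ext1 <;> simp [Qt.cst]

theorem cst_neg (r : R4) : (Qt.cst (-r) : Qt A B C α) = -Qt.cst r := by
  ext1 <;> simp [Qt.cst]

theorem cst_mul' (r s : R4) : (Qt.cst (r * s) : Qt A B C α) = Qt.cst r * Qt.cst s := by
  ext1 <;> simp [Qt.cst]

/-- the structure map -/
def cstHom : R4 →+* Qt A B C α where
  toFun := Qt.cst
  map_zero' := rfl
  map_one' := rfl
  map_add' := cst_add
  map_mul' := cst_mul'

instance : Algebra R4 (Qt A B C α) := cstHom.toAlgebra' fun r p => Qt.cst_comm r p

theorem smul_def (r : R4) (p : Qt A B C α) : r • p = Qt.cst r * p := rfl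

theorem smul_one_eq (r : R4) : r • (1 : Qt A B C α) = Qt.cst r := by
  rw [smul_def, mul_one]

theorem one_ne_zero' : (1 : Qt A B C α) ≠ 0 := by
  intro h
  have := congrArg Qt.t h
  exact one_ne_zero (α := R4) this

/-- a square root of `-1` has norm one and trace zero -/
theorem root_facts (hC : Pos C) (hα : Pos α) (h : α * (4 * A * C - B ^ 2) - C = 1)
    {i : Qt A B C α} (hi : i * i = -1) : Qt.nrd i = 1 ∧ Qt.trd i = 0 := by
  have hi0 : i ≠ 0 := by
    rintro rfl
    rw [mul_zero] at hi
    exact one_ne_zero' (neg_eq_zero.1 hi.symm)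
  have hn : Qt.nrd (-1 : Qt A B C α) = 1 := by simp [Qt.nrd]
  have h1 := congrArg Qt.nrd hi
  rw [Qt.nrd_mul, hn] at h1
  have h2 : (Qt.nrd i - 1) * (Qt.nrd i + 1) = 0 := by linear_combination h1
  have h3 : Qt.nrd i = 1 := by
    rcases dom _ _ h2 with h4 | h4
    · linear_combination h4
    · exfalso
      exact pos_ne (pos_add (nrd_pos hC hα h hi0) pos_one) h4
  refine ⟨h3, ?_⟩
  have h4 := Qt.mul_conj i
  rw [h3, conj_eq, mul_sub, hi, cst_one] at h4
  have h5 : i * Qt.cst (Qt.trd i) = 0 := by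
    have : i * Qt.cst (Qt.trd i) = (i * Qt.cst (Qt.trd i) - -1) - 1 := by abel
    rw [this, h4, sub_self]
  rcases qt_dom hC hα h h5 with h6 | h6
  · exact absurd h6 hi0
  · exact congrArg Qt.t h6

theorem qt_conj_sub (p q : Qt A B C α) : Qt.conj (p - q) = Qt.conj p - Qt.conj q := conj_sub p q

theorem t_FR : S_FR := by
  intro A B C α hA hC hα h i j hi hj hji v hv
  obtain ⟨ni, ti⟩ := root_facts hC hα h hi
  obtain ⟨nj, tj⟩ := root_facts hC hα h hj
  refine frame_abs (R := R4) (S := Qt A B C α) Qt.conj Qt.trd Qt.nrd conj_sub Qt.conj_rev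
    (fun p => by rw [smul_one_eq]; exact Qt.add_conj p)
    (fun p => by rw [smul_one_eq]; exact Qt.mul_conj p)
    (fun p hp => ⟨p.t, by rw [smul_one_eq]; exact conj_fix hp⟩)
    (fun p q hpq => qt_dom hC hα h hpq)
    (fun p hp => ?_)
    (fun r s hrs => ?_) one_ne_zero' hi hj hji (conj_of_trd ti) (conj_of_trd tj) (conj_of_trd hv)
  · rw [smul_def] at hp
    rcases qt_dom hC hα h hp with h1 | h1
    · exact absurd (congrArg Qt.t h1) (by show (2 : R4) ≠ 0; decide)
    · exact h1
  · rw [smul_one_eq, smul_one_eq] at hrs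
    exact cst_inj hrs

end

end Pool.Agent.U14.UF
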