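import Pool.Agent.U14.UF.FR

set_option autoImplicit false

/-!
# Project UF, package GF: group facts
-/

namespace Pool.Agent.U14.UF

open R4

/-- an abstract quaternion ring -/
structure QR (R S : Type) [CommRing R] [Ring S] [Algebra R S] where
  cj : S → S
  trd : S → R
  nrd : S → R
  c_sub : ∀ p q, cj (p - q) = cj p - cj q
  c_rev : ∀ p q, cj (p * q) = cj q * cj p
  c_c : ∀ p, cj (cj p) = p
  a_conj : ∀ p, p + cj p = trd p • (1 : S)
  m_conj : ∀ p, p * cj p = nrd p • (1 : S)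
  c_mul : ∀ p, cj p * p = nrd p • (1 : S)
  fix : ∀ p, cj p = p → ∃ r : R, p = r • (1 : S)
  dom : ∀ p q : S, p * q = 0 → p = 0 ∨ q = 0
  two : ∀ p : S, (2 : R) • p = 0 → p = 0
  inj : ∀ r s : R, r • (1 : S) = s • (1 : S) → r = s
  domR : ∀ r s : R, r * s = 0 → r = 0 ∨ s = 0

namespace QR
variable {R S : Type} [CommRing R] [Ring S] [Algebra R S] (Q : QR R S)
include Q

theorem cj_eq (p : S) : Q.cj p = Q.trd p • (1 : S) - p := by
  rw [← Q.a_conj p]; abel

theorem fix_one {x : S} (hx : Q.nrd x = 1) (h : Q.cj x = x) : x = 1 ∨ x = -1 := by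
  obtain ⟨r, hr⟩ := Q.fix x h
  have h1 := Q.m_conj x
  rw [h, hx, hr, smul_mul_smul_comm, one_mul] at h1
  have h2 := Q.inj _ _ h1
  have h3 : (r - 1) * (r + 1) = 0 := by linear_combination h2
  rcases Q.domR _ _ h3 with h4 | h4
  · left
    have : r = 1 := by linear_combination h4
    rw [hr, this, one_smul]
  · right
    have : r = -1 := by linear_combination h4
    rw [hr, this, neg_smul, one_smul]

theorem norm_aux {x y : S} (hx : Q.nrd x = 1) (hy : Q.nrd y = 1)
    (hc : (y * x * Q.cj y) * x = x * (y * x * Q.cj y)) (h1 : x ≠ 1) (h2 : x ≠ -1) :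
    y * x = x * y ∨ (y * x = Q.cj x * y ∧ y * y = -1) := by
  have yy : y * Q.cj y = 1 := by rw [Q.m_conj, hy, one_smul]
  have yy' : Q.cj y * y = 1 := by rw [Q.c_mul, hy, one_smul]
  have xx : x * Q.cj x = 1 := by rw [Q.m_conj, hx, one_smul]
  obtain ⟨w, hw⟩ : ∃ w, w = y * x * Q.cj y := ⟨_, rfl⟩
  rw [← hw] at hc
  have wy : w * y = y * x := by rw [hw, mul_assoc, yy', mul_one]
  have cw : Q.cj w = y * Q.cj x * Q.cj y := by
    rw [hw, Q.c_rev, Q.c_rev, Q.c_c, mul_assoc]
  have w1 : w + Q.cj w = Q.trd x • (1 : S) := by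
    have : w + Q.cj w = y * (x + Q.cj x) * Q.cj y := by rw [cw, hw]; noncomm_ring
    rw [this, Q.a_conj, mul_smul_comm, mul_one, smul_mul_assoc, yy]
  have w2 : w * Q.cj w = 1 := by
    calc w * Q.cj w = y * x * (Q.cj y * y) * Q.cj x * Q.cj y := by rw [cw, hw]; noncomm_ring
      _ = y * (x * Q.cj x) * Q.cj y := by rw [yy']; noncomm_ring
      _ = 1 := by rw [xx, mul_one, yy]
  have w3 : (w - x) * (w - Q.cj x) = 0 := by
    calc (w - x) * (w - Q.cj x) = w * w - w * Q.cj x - x * w + x * Q.cj x := by noncomm_ring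
      _ = w * w - w * (x + Q.cj x) + 1 := by rw [← hc, xx]; noncomm_ring
      _ = w * w - w * (w + Q.cj w) + 1 := by rw [Q.a_conj x, w1]
      _ = 1 - w * Q.cj w := by noncomm_ring
      _ = 0 := by rw [w2, sub_self]
  rcases Q.dom _ _ w3 with h3 | h3
  · left
    have : w = x := by rw [← sub_eq_zero]; exact h3
    rw [← wy, this]
  · right
    have hwx : w = Q.cj x := by rw [← sub_eq_zero]; exact h3
    have e1 : y * x = Q.cj x * y := by rw [← wy, hwx]
    refine ⟨e1, ?_⟩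
    have e2 : Q.cj x * Q.cj y = Q.cj y * x := by
      have := congrArg Q.cj e1
      rwa [Q.c_rev, Q.c_rev, Q.c_c] at this
    have e3 : (Q.trd y • (1 : S)) * (x - Q.cj x) = 0 := by
      have : (Q.trd y • (1 : S)) * (x - Q.cj x) =
          (Q.trd y • (1 : S)) * x - Q.cj x * (Q.trd y • (1 : S)) := by
        rw [mul_sub, smul_mul_assoc, smul_mul_assoc, mul_smul_comm, one_mul, one_mul, mul_one]
      rw [this, ← Q.a_conj y, add_mul, mul_add, e1, e2, sub_self]
    rcases Q.dom _ _ e3 with h4 | h4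
    · have e4 : Q.cj y = -y := by
        rw [eq_neg_iff_add_eq_zero, add_comm, Q.a_conj, h4]
      rw [e4, mul_neg] at yy
      rw [← yy, neg_neg]
    · exfalso
      have : Q.cj x = x := (sub_eq_zero.1 h4).symm
      rcases Q.fix_one hx this with h5 | h5
      · exact h1 h5
      · exact h2 h5

theorem cent_aux {x u v : S} (hx : Q.nrd x = 1) (h1 : x ≠ 1) (h2 : x ≠ -1)
    (hu : u * x = x * u) (hv : v * x = x * v) : u * v = v * u := by
  obtain ⟨x0, hx0⟩ : ∃ x0, x0 = x - Q.cj x := ⟨_, rfl⟩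
  have x0ne : x0 ≠ 0 := by
    intro h0
    rw [h0] at hx0
    have : Q.cj x = x := (sub_eq_zero.1 hx0.symm).symm
    rcases Q.fix_one hx this with h5 | h5
    · exact h1 h5
    · exact h2 h5
  have cx0 : Q.cj x0 = -x0 := by rw [hx0, Q.c_sub, Q.c_c]; abel
  have key : ∀ w : S, w * x = x * w → (w - Q.cj w) * x0 = x0 * (w - Q.cj w) ∧
      ∃ r : R, (w - Q.cj w) * x0 = r • (1 : S) := by
    intro w hw
    have a1 : w * x0 = x0 * w := by
      rw [hx0, Q.cj_eq x, mul_sub, mul_sub, mul_smul_comm, mul_one, sub_mul, sub_mul,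
        smul_mul_assoc, one_mul, hw]
    have a2 : Q.cj w * x0 = x0 * Q.cj w := by
      rw [Q.cj_eq w, sub_mul, mul_sub, smul_mul_assoc, one_mul, mul_smul_comm, mul_one, a1]
    have a3 : (w - Q.cj w) * x0 = x0 * (w - Q.cj w) := by rw [sub_mul, mul_sub, a1, a2]
    refine ⟨a3, Q.fix _ ?_⟩
    have cw : Q.cj (w - Q.cj w) = -(w - Q.cj w) := by rw [Q.c_sub, Q.c_c]; abel
    rw [Q.c_rev, cx0, cw, neg_mul_neg, a3]
  obtain ⟨cu, r, hr⟩ := key u hu
  obtain ⟨cv, s, hs⟩ := key v hv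
  have e1 : ((u - Q.cj u) * (v - Q.cj v) - (v - Q.cj v) * (u - Q.cj u)) * x0 * x0 = 0 := by
    generalize u - Q.cj u = a at *
    generalize v - Q.cj v = b at *
    have : (a * b - b * a) * x0 * x0 = a * (b * x0) * x0 - b * (a * x0) * x0 := by noncomm_ring
    rw [this, hs, hr, mul_smul_comm, mul_smul_comm, mul_one, mul_one, smul_mul_assoc,
      smul_mul_assoc, hr, hs, smul_smul, smul_smul, mul_comm s r, sub_self]
  have e2 : (u - Q.cj u) * (v - Q.cj v) - (v - Q.cj v) * (u - Q.cj u) = 0 := by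
    rcases Q.dom _ _ e1 with h3 | h3
    · rcases Q.dom _ _ h3 with h4 | h4
      · exact h4
      · exact absurd h4 x0ne
    · exact absurd h3 x0ne
  have e3 : (2 : R) • ((2 : R) • (u * v - v * u)) = 0 := by
    rw [← e2, Q.cj_eq u, Q.cj_eq v]
    generalize Q.trd u = a
    generalize Q.trd v = b
    simp only [sub_mul, mul_sub, smul_mul_assoc, mul_smul_comm, one_mul, mul_one]
    module
  exact sub_eq_zero.1 (Q.two _ (Q.two _ e3))

end QR

section ords
variable {R S : Type} [CommRing R] [Ring S] [Algebra R S] {p : S} {T : R}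

theorem ord6 (hp : p * p = T • p - 1) (hT : T = 1) : p ^ 6 = 1 := by
  subst hT
  rw [one_smul] at hp
  have h3 : p * p * p = -1 := by rw [hp, sub_mul, hp, one_mul]; abel
  have : p ^ 6 = (p * p * p) * (p * p * p) := by noncomm_ring
  rw [this, h3]; simp

theorem ord6' (hp : p * p = T • p - 1) (hT : T = -1) : p ^ 6 = 1 := by
  have : (-p) * (-p) = (1 : R) • (-p) - 1 := by rw [neg_mul_neg, hp, hT]; module
  have h := ord6 this rfl
  rwa [Even.neg_pow (by decide)] at h

theorem ord8 (hp : p * p = T • p - 1) (hT : T * T = 0 ∨ T * T = 2) (hT0 : T * T = 0 → T = 0) :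
    p ^ 8 = 1 := by
  have h4 : (p * p) * (p * p) = 1 ∨ (p * p) * (p * p) = -1 := by
    rcases hT with h0 | h2
    · left
      rw [hT0 h0, zero_smul, zero_sub] at hp
      rw [hp]; simp
    · right
      have : (p * p) * (p * p) = (T * T) • (p * p) - T • p - T • p + 1 := by
        nth_rewrite 1 [hp]
        nth_rewrite 1 [hp]
        simp only [sub_mul, mul_sub, smul_mul_smul_comm, one_mul, mul_one]
        abel
      rw [this, h2, hp]
      module
  have e : p ^ 8 = ((p * p) * (p * p)) * ((p * p) * (p * p)) := by noncomm_ring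
  rw [e]
  rcases h4 with h | h <;> rw [h] <;> simp

theorem ord10 (hp : p * p = T • p - 1) (hT : T * T = T + 1) : p ^ 10 = 1 := by
  have h3 : p * p * p = T • p - T • (1 : S) := by
    rw [hp, sub_mul, smul_mul_assoc, hp, one_mul, smul_sub, smul_smul, hT]
    module
  have h5 : p ^ 5 = -1 := by
    have e : p ^ 5 = (p * p) * (p * p * p) := by noncomm_ring
    rw [e, h3]
    nth_rewrite 1 [hp]
    simp only [sub_mul, mul_sub, smul_mul_smul_comm, one_mul, mul_one]
    rw [hT, hp]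
    have e1 : (T + 1) • (T • p - 1) - T • p - ((T + 1) • p - T • (1 : S)) =
      (T * T - T - 1) • p - (1 : S) := by module
    have e2 : T * T - T - 1 = 0 := by linear_combination hT
    rw [e1, e2, zero_smul, zero_sub]
  have e : p ^ 10 = p ^ 5 * p ^ 5 := by rw [← pow_add]
  rw [e, h5]; simp

theorem ord10' (hp : p * p = T • p - 1) (hT : T * T = -T + 1) : p ^ 10 = 1 := by
  have : (-p) * (-p) = (-T) • (-p) - 1 := by rw [neg_mul_neg, hp]; module
  have h := ord10 this (by rw [neg_mul_neg, hT])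
  rwa [Even.neg_pow (by decide)] at h

end ords

/-! ### The traces -/

theorem pos_sq {w : R4} (hw : w ≠ 0) : Pos (w ^ 2) := by
  intro l t hl ht
  rw [ev_pow hl ht]
  have := ev_ne hw hl ht
  positivity

/-- the traces of elements of norm one -/
theorem trace_list {T : R4} (h : Pos (4 - T ^ 2)) :
    T = 0 ∨ T = 1 ∨ T = -1 ∨ T = s2 ∨ T = -s2 ∨ T = tau ∨ T = -tau ∨ T = tau - 1 ∨
      T = -(tau - 1) := by
  obtain ⟨a, b, c, d⟩ := T
  have h0 := a_pos h
  have h1 := a_pos (pos_mul (pos_sq (w := ⟨1, 1, 1, 0⟩) (by decide)) h)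
  have h2 := a_pos (pos_mul (pos_sq (w := ⟨1, 1, 1, 1⟩) (by decide)) h)
  simp only [pow_two, mul_a, mul_b, mul_c, mul_d, sub_a, sub_b, sub_c, sub_d, on_a, on_b, on_c,
    on_d] at h0 h1 h2
  ring_nf at h0 h1 h2
  have ha : -1 ≤ a ∧ a ≤ 1 := by constructor <;> nlinarith [sq_nonneg b, sq_nonneg c, sq_nonneg d]
  have hb : -1 ≤ b ∧ b ≤ 1 := by constructor <;> nlinarith [sq_nonneg a, sq_nonneg c, sq_nonneg d]
  have hc : -1 ≤ c ∧ c ≤ 1 := by constructor <;> nlinarith [sq_nonneg b, sq_nonneg a, sq_nonneg d]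
  have hd : -1 ≤ d ∧ d ≤ 1 := by constructor <;> nlinarith [sq_nonneg b, sq_nonneg c, sq_nonneg a]
  obtain ⟨a1, a2⟩ := ha
  obtain ⟨b1, b2⟩ := hb
  obtain ⟨c1, c2⟩ := hc
  obtain ⟨d1, d2⟩ := hd
  interval_cases a <;> interval_cases b <;> interval_cases c <;> interval_cases d <;>
    first
      | (exfalso; revert h0 h1 h2; norm_num; done)
      | decide

theorem zp_comm {G : Type} [Group G] {x w : G} (h : w ∈ Subgroup.zpowers x) : w * x = x * w := by
  rw [Subgroup.mem_zpowers_iff] at h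
  obtain ⟨n, hn⟩ := h
  rw [← hn]
  exact ((Commute.refl x).zpow_left n).eq

attribute [-instance] Qt.instMul Qt.instAdd Qt.instNeg Qt.instZero Qt.instOne

section
variable {A B C α : R4}

theorem nrd_conj (p : Qt A B C α) : Qt.nrd (Qt.conj p) = Qt.nrd p := by
  simp only [Qt.nrd, Qt.conj]; ring

theorem nrd_one : Qt.nrd (1 : Qt A B C α) = 1 := by simp [Qt.nrd]

theorem nrd_neg_one : Qt.nrd (-1 : Qt A B C α) = 1 := by simp [Qt.nrd]

/-- the abstract quaternion ring structure of the order -/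
def qr (hC : Pos C) (hα : Pos α) (h : α * (4 * A * C - B ^ 2) - C = 1) : QR R4 (Qt A B C α) where
  cj := Qt.conj
  trd := Qt.trd
  nrd := Qt.nrd
  c_sub := conj_sub
  c_rev := Qt.conj_rev
  c_c := conj_conj
  a_conj p := by rw [smul_one_eq]; exact Qt.add_conj p
  m_conj p := by rw [smul_one_eq]; exact Qt.mul_conj p
  c_mul p := by rw [smul_one_eq]; exact Qt.conj_mul p
  fix p hp := ⟨p.t, by rw [smul_one_eq]; exact conj_fix hp⟩
  dom p q hpq := qt_dom hC hα h hpq
  two p hp := by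
    rw [smul_def] at hp
    rcases qt_dom hC hα h hp with h1 | h1
    · exact absurd (congrArg Qt.t h1) (by show (2 : R4) ≠ 0; decide)
    · exact h1
  inj r s hrs := by
    rw [smul_one_eq, smul_one_eq] at hrs
    exact cst_inj hrs
  domR := dom

/-- the group of elements of norm one -/
def UG (A B C α : R4) : Type := {p : Qt A B C α // Qt.nrd p = 1}

/-- multiplication of elements of norm one -/
def ugMul (p q : UG A B C α) : UG A B C α := ⟨p.1 * q.1, by rw [Qt.nrd_mul, p.2, q.2, one_mul]⟩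
/-- the inverse -/
def ugInv (p : UG A B C α) : UG A B C α := ⟨Qt.conj p.1, by rw [nrd_conj, p.2]⟩
/-- the unit -/
def ugOne : UG A B C α := ⟨1, nrd_one⟩

theorem ug_assoc (a b c : UG A B C α) : ugMul (ugMul a b) c = ugMul a (ugMul b c) :=
  Subtype.ext (mul_assoc a.1 b.1 c.1)
theorem ug_one_mul (a : UG A B C α) : ugMul ugOne a = a := Subtype.ext (one_mul a.1)
theorem ug_inv_mul (a : UG A B C α) : ugMul (ugInv a) a = ugOne := Subtype.ext (by
    show Qt.conj a.1 * a.1 = 1
    rw [Qt.conj_mul, a.2]; rfl)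

instance instGroupUG : Group (UG A B C α) :=
  @Group.ofLeftAxioms (UG A B C α) ⟨ugMul⟩ ⟨ugInv⟩ ⟨ugOne⟩ ug_assoc ug_one_mul ug_inv_mul

theorem ug_mul (p q : UG A B C α) : (p * q).1 = p.1 * q.1 := rfl
theorem ug_one : (1 : UG A B C α).1 = 1 := rfl
theorem ug_inv (p : UG A B C α) : (p⁻¹).1 = Qt.conj p.1 := rfl
theorem ug_pow (p : UG A B C α) (n : ℕ) : (p ^ n).1 = p.1 ^ n := by
  induction n with
  | zero => rw [pow_zero, pow_zero]; rfl
  | succ n ih => rw [pow_succ, pow_succ, ug_mul, ih]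

/-- `-1` -/
def ugz : UG A B C α := ⟨-1, nrd_neg_one⟩

theorem ord_all (hC : Pos C) (hα : Pos α) (h : α * (4 * A * C - B ^ 2) - C = 1)
    {p : Qt A B C α} (hp : Qt.nrd p = 1) : p ^ 6 = 1 ∨ p ^ 8 = 1 ∨ p ^ 10 = 1 := by
  obtain ⟨q, hq⟩ : ∃ q : Qt A B C α, q = ⟨2 * p.t - Qt.trd p, 2 * p.x, 2 * p.y, 2 * p.z⟩ := ⟨_, rfl⟩
  have hn : Qt.nrd q = 4 - Qt.trd p ^ 2 := by
    have : Qt.nrd q = 4 * Qt.nrd p - Qt.trd p ^ 2 := by
      rw [hq]; simp only [Qt.nrd, Qt.trd]; ring
    rw [this, hp, mul_one]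
  have hsq : p * p = Qt.trd p • p - 1 := by
    have h1 := Qt.mul_conj p
    rw [conj_eq, mul_sub, hp, cst_one, ← Qt.cst_comm] at h1
    rw [smul_def, ← h1]; abel
  by_cases h0 : q = 0
  · left
    rw [hq] at h0
    have hx := congrArg Qt.x h0
    have hy := congrArg Qt.y h0
    have hz := congrArg Qt.z h0
    have c2 : ∀ r : R4, 2 * r = 0 → r = 0 := by
      intro r hr
      rcases dom _ _ hr with h1 | h1
      · exact absurd h1 (by decide)
      · exact h1
    have hx' := c2 _ hx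
    have hy' := c2 _ hy
    have hz' := c2 _ hz
    have hpt : p = Qt.cst p.t := by
      ext1
      · rfl
      · exact hx'
      · exact hy'
      · exact hz'
    have ht : p.t ^ 2 = 1 := by rw [← Qt.nrd_cst (A := A) (B := B) (C := C) (α := α), ← hpt, hp]
    have hpp : p * p = 1 := by
      rw [hpt, ← cst_mul', ← pow_two, ht]; rfl
    have e : p ^ 6 = (p * p) ^ 3 := by rw [← pow_two, ← pow_mul]
    rw [e, hpp, one_pow]
  · have hpos : Pos (4 - Qt.trd p ^ 2) := by rw [← hn]; exact nrd_pos hC hα h h0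
    rcases trace_list hpos with h1 | h1 | h1 | h1 | h1 | h1 | h1 | h1 | h1
    · right; left
      exact ord8 hsq (Or.inl (by rw [h1, mul_zero])) (fun _ => h1)
    · left; exact ord6 hsq h1
    · left; exact ord6' hsq h1
    · right; left
      exact ord8 hsq (Or.inr (by rw [h1]; decide)) (fun h2 => absurd h2 (by rw [h1]; decide))
    · right; left
      exact ord8 hsq (Or.inr (by rw [h1]; decide)) (fun h2 => absurd h2 (by rw [h1]; decide))
    · right; right; exact ord10 hsq (by rw [h1]; decide)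
    · right; right; exact ord10' hsq (by rw [h1]; decide)
    · right; right; exact ord10' hsq (by rw [h1]; decide)
    · right; right; exact ord10 hsq (by rw [h1]; decide)

theorem one_ne_neg_one : (-1 : Qt A B C α) ≠ 1 := by
  intro h
  exact absurd (congrArg Qt.t h) (by show (-1 : R4) ≠ 1; decide)

theorem g1 : (ugz : UG A B C α) ≠ 1 := fun h0 => one_ne_neg_one (congrArg Subtype.val h0)

theorem g2 : (ugz : UG A B C α) * ugz = 1 := by
  apply Subtype.ext
  rw [ug_mul, ug_one]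
  show (-1 : Qt A B C α) * -1 = 1
  rw [neg_one_mul, neg_neg]

theorem g3 (g : UG A B C α) : g * ugz = ugz * g := by
  apply Subtype.ext
  rw [ug_mul, ug_mul]
  show g.1 * -1 = -1 * g.1
  rw [neg_one_mul, mul_neg_one]

theorem g4 (hC : Pos C) (hα : Pos α) (h : α * (4 * A * C - B ^ 2) - C = 1)
    (g : UG A B C α) (hg : g * g = 1) : g = 1 ∨ g = ugz := by
  have h1 := congrArg Subtype.val hg
  rw [ug_mul, ug_one] at h1
  have h2 : (g.1 - 1) * (g.1 + 1) = 0 := by
    rw [sub_mul, mul_add, one_mul, mul_one, h1]; abel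
  rcases qt_dom hC hα h h2 with h3 | h3
  · left; exact Subtype.ext (sub_eq_zero.1 h3)
  · right; exact Subtype.ext (eq_neg_of_add_eq_zero_left h3)

theorem g5 (hC : Pos C) (hα : Pos α) (h : α * (4 * A * C - B ^ 2) - C = 1)
    (g : UG A B C α) : g ^ 6 = 1 ∨ g ^ 8 = 1 ∨ g ^ 10 = 1 := by
  rcases ord_all hC hα h g.2 with h1 | h1 | h1
  · left; apply Subtype.ext; rw [ug_pow, ug_one]; exact h1
  · right; left; apply Subtype.ext; rw [ug_pow, ug_one]; exact h1
  · right; right; apply Subtype.ext; rw [ug_pow, ug_one]; exact h1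

theorem g6a (x y : UG A B C α) (hz : y * x * y⁻¹ ∈ Subgroup.zpowers x) :
    (y.1 * x.1 * Qt.conj y.1) * x.1 = x.1 * (y.1 * x.1 * Qt.conj y.1) := by
  have hc := zp_comm hz
  have hc' := congrArg Subtype.val hc
  rw [ug_mul, ug_mul, ug_mul, ug_inv, ug_mul, ug_mul, ug_mul, ug_inv] at hc'
  exact hc'

theorem qt_norm_aux (hC : Pos C) (hα : Pos α) (h : α * (4 * A * C - B ^ 2) - C = 1)
    {x y : Qt A B C α} (hx : Qt.nrd x = 1) (hy : Qt.nrd y = 1)
    (hc : (y * x * Qt.conj y) * x = x * (y * x * Qt.conj y)) (h1 : x ≠ 1) (h2 : x ≠ -1) :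
    y * x = x * y ∨ (y * x = Qt.conj x * y ∧ y * y = -1) := by
  have e : (qr hC hα h).cj = Qt.conj := rfl
  have e1 : (qr hC hα h).nrd x = 1 := hx
  have e2 : (qr hC hα h).nrd y = 1 := hy
  have k := (qr hC hα h).norm_aux (x := x) (y := y) e1 e2 (by rw [e]; exact hc) h1 h2
  rw [e] at k
  exact k

theorem g6 (hC : Pos C) (hα : Pos α) (h : α * (4 * A * C - B ^ 2) - C = 1)
    (x y : UG A B C α) (hx1 : x ≠ 1) (hxz : x ≠ ugz) (hz : y * x * y⁻¹ ∈ Subgroup.zpowers x) :
    y * x = x * y ∨ (y * x = x⁻¹ * y ∧ y * y = ugz) := by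
  have h1 : x.1 ≠ 1 := fun h0 => hx1 (Subtype.ext h0)
  have h2 : x.1 ≠ -1 := fun h0 => hxz (Subtype.ext h0)
  rcases qt_norm_aux hC hα h x.2 y.2 (g6a x y hz) h1 h2 with h3 | ⟨h3, h4⟩
  · left
    apply Subtype.ext
    rw [ug_mul, ug_mul]; exact h3
  · right
    constructor
    · apply Subtype.ext
      rw [ug_mul, ug_mul, ug_inv]; exact h3
    · apply Subtype.ext
      rw [ug_mul]; exact h4

theorem g7 (hC : Pos C) (hα : Pos α) (h : α * (4 * A * C - B ^ 2) - C = 1)
    (x u v : UG A B C α) (hx1 : x ≠ 1) (hxz : x ≠ ugz) (hu : u * x = x * u) (hv : v * x = x * v) :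
    u * v = v * u := by
  have h1 : x.1 ≠ 1 := fun h0 => hx1 (Subtype.ext h0)
  have h2 : x.1 ≠ -1 := fun h0 => hxz (Subtype.ext h0)
  have hu' := congrArg Subtype.val hu
  have hv' := congrArg Subtype.val hv
  rw [ug_mul, ug_mul] at hu' hv'
  apply Subtype.ext
  rw [ug_mul, ug_mul]
  exact (qr hC hα h).cent_aux x.2 h1 h2 hu' hv'

theorem g8 (hcard : Nat.card {p : Qt A B C α // Qt.nrd p = 1} ∈ ({40, 48, 60, 80, 120} : Set ℕ)) :
    Finite (UG A B C α) := by
  apply Nat.finite_of_card_ne_zero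
  intro h0
  have h1 : Nat.card {p : Qt A B C α // Qt.nrd p = 1} = 0 := h0
  rw [h1] at hcard
  simp at hcard

theorem g9 (i j : UG A B C α) (hji : j * i = ugz * (i * j)) : j.1 * i.1 = -(i.1 * j.1) := by
  have h1 := congrArg Subtype.val hji
  rw [ug_mul, ug_mul, ug_mul] at h1
  rw [h1]
  show -1 * (i.1 * j.1) = -(i.1 * j.1)
  rw [neg_one_mul]

theorem g10 (i : UG A B C α) (hi : i * i = ugz) : i.1 * i.1 = -1 := by
  have h1 := congrArg Subtype.val hi
  rw [ug_mul] at h1
  exact h1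

end

theorem t_GF : S_GF := by
  intro grp A B C α hA hC hα h hcard
  have hfin := g8 hcard
  have key := grp (UG A B C α) ugz g1 g2 g3 (g4 hC hα h) (g5 hC hα h) (g6 hC hα h) (g7 hC hα h) hcard
  obtain ⟨i, j, hi, hj, hji⟩ := key
  exact ⟨i.1, j.1, g10 i hi, g10 j hj, g9 i j hji⟩

end Pool.Agent.U14.UF
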