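import Pool.Agent.U14.UF.Stm

set_option autoImplicit false

/-!
# Project UF (helper14): the packages
-/

namespace Pool.Agent.U14.UF

open R4 NumberField

/-- KB: the field `ℚ(√2, √5)` with ring of integers `R4`. -/
def S_KB : Prop := ∃ (K : Type) (_ : Field K) (_ : NumberField K),
  Module.finrank ℚ K = 4 ∧ IsGalois ℚ K ∧ (∀ σ : K ≃ₐ[ℚ] K, σ * σ = 1) ∧
  NumberField.IsTotallyReal K ∧ Nonempty (NumberField.RingOfIntegers K ≃+* R4)

/-- DIR: a totally positive prime element `≡ -1 (mod m)`. -/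
def S_DIR : Prop := ∀ (K : Type) [Field K] [NumberField K] [NumberField.IsTotallyReal K]
  (m : NumberField.RingOfIntegers K), m ≠ 0 →
  ∃ π : NumberField.RingOfIntegers K, (∀ φ : K →+* ℝ, 0 < φ (π : K)) ∧ Prime π ∧ m ∣ π + 1

/-- the same in `R4` -/
def S_DIRR : Prop := ∀ m : R4, m ≠ 0 → ∃ π : R4, Pos π ∧ Prime π ∧ m ∣ π + 1

/-- the main theorem: `2 α` is a sum of three squares -/
def S_MAIN : Prop := ∀ α : R4, Pos α → ∃ P Q S : R4, P ^ 2 + Q ^ 2 + S ^ 2 = 2 * α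

/-- the frozen statement S18713 -/
def S_FIN : Prop :=
    ∃ (K : Type) (_ : Field K) (_ : NumberField K),
      Module.finrank ℚ K = 4 ∧ IsGalois ℚ K ∧ (∀ σ : K ≃ₐ[ℚ] K, σ * σ = 1) ∧
      NumberField.IsTotallyReal K ∧
      ∃ a : Fin 3 → Fin 3 → NumberField.RingOfIntegers K,
        (∀ φ : K →+* ℝ, ∀ x : Fin 3 → ℝ, x ≠ 0 →
          0 < ∑ i : Fin 3, ∑ j : Fin 3,
            (if i ≤ j then φ ((a i j : NumberField.RingOfIntegers K) : K) * x i * x j else 0)) ∧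
        ∀ α : NumberField.RingOfIntegers K,
          (∀ φ : K →+* ℝ, 0 < φ ((α : NumberField.RingOfIntegers K) : K)) →
          ∃ v : Fin 3 → NumberField.RingOfIntegers K,
            (∑ i : Fin 3, ∑ j : Fin 3, (if i ≤ j then a i j * v i * v j else 0)) = α

/-- TR: transfer between `𝓞 K` and `R4`. Form `x² + √2 x y + y² + y z + z²`, which is
`(A² + B² + C²)/2` with `A = √2 x + y`, `B = y + z`, `C = z`; `P² + Q² + S² ∈ 2 R4` forces
`√2 ∣ P + Q + S`, since `R4/√2` is the field with four elements. -/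
def S_TR : Prop := S_KB → (S_DIR → S_DIRR) ∧ (S_MAIN → S_FIN)

/-- MIL: Milgram's formula for the lattice `R4` with the form `2 ℓ(β x y)`, `ℓ` = first coordinate
(positive definite of rank `4`, so the Gauss sum is a positive multiple of `exp(4 π i / 4) = -1`).
`T` is a complete residue system modulo `2 β`. -/
def S_MIL : Prop := ∀ β : R4, Pos β → ∀ T : Finset R4, (∀ z : R4, ∃! t, t ∈ T ∧ 2 * β ∣ z - t) →
  ∃ r : ℝ, 0 < r ∧ ∑ t ∈ T, Complex.exp (2 * Real.pi * Complex.I *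
    (((t ^ 2 * adj β).a : ℂ) / (4 * (nm β : ℂ)))) = -(r : ℂ)

/-- REC: one consequence of reciprocity. -/
def S_RECR : Prop := ∀ α π : R4, Pos α → Pos π → Prime π → 4 * α ∣ π + 1 → ∃ B : R4, π ∣ 1 + α * B ^ 2

/-- REC -/
def S_REC : Prop := S_MIL → S_RECR

/-- THETA: an even unimodular positive definite lattice of rank `16` has `480` roots. -/
def S_THETA : Prop := ∀ G : Matrix (Fin 16) (Fin 16) ℤ, (∀ i j, G i j = G j i) →
  (∀ x : Fin 16 → ℝ, x ≠ 0 → 0 < ∑ i, ∑ j, x i * (G i j : ℝ) * x j) → G.det = 1 →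
  (∀ x : Fin 16 → ℤ, Even (∑ i, ∑ j, x i * G i j * x j)) →
  Nat.card {x : Fin 16 → ℤ // ∑ i, ∑ j, x i * G i j * x j = 2} = 480

/-- LAT: the order is an even unimodular lattice. -/
def S_LAT : Prop := ∀ A B C α : R4, Pos A → Pos C → Pos α → α * (4 * A * C - B ^ 2) - C = 1 →
  Nat.card {p : Qt A B C α // (Qt.nrd p).a = 1} = 480

/-- CNT: the number of units of norm one. -/
def S_CNT : Prop := ∀ A B C α : R4, Pos A → Pos C → Pos α → α * (4 * A * C - B ^ 2) - C = 1 →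
  vpi ∣ A → vpi ∣ B → Nat.card {p : Qt A B C α // (Qt.nrd p).a = 1} = 480 →
  Nat.card {p : Qt A B C α // Qt.nrd p = 1} ∈ ({40, 48, 60, 80, 120} : Set ℕ)

/-- GRP: a quaternion group in a finite group. -/
def S_GRP : Prop := ∀ (G : Type) [Group G] [Finite G] (z : G), z ≠ 1 → z * z = 1 →
  (∀ g : G, g * z = z * g) → (∀ g : G, g * g = 1 → g = 1 ∨ g = z) →
  (∀ g : G, g ^ 6 = 1 ∨ g ^ 8 = 1 ∨ g ^ 10 = 1) →
  (∀ x y : G, x ≠ 1 → x ≠ z → y * x * y⁻¹ ∈ Subgroup.zpowers x →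
    y * x = x * y ∨ (y * x = x⁻¹ * y ∧ y * y = z)) →
  (∀ x u v : G, x ≠ 1 → x ≠ z → u * x = x * u → v * x = x * v → u * v = v * u) →
  Nat.card G ∈ ({40, 48, 60, 80, 120} : Set ℕ) →
  ∃ i j : G, i * i = z ∧ j * j = z ∧ j * i = z * (i * j)

/-- GF: the group facts for the units, giving a frame. -/
def S_GF : Prop := S_GRP → ∀ A B C α : R4, Pos A → Pos C → Pos α →
  α * (4 * A * C - B ^ 2) - C = 1 →
  Nat.card {p : Qt A B C α // Qt.nrd p = 1} ∈ ({40, 48, 60, 80, 120} : Set ℕ) →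
  ∃ i j : Qt A B C α, i * i = -1 ∧ j * j = -1 ∧ j * i = -(i * j)

/-- FR: coordinates with respect to a frame. -/
def S_FR : Prop := ∀ A B C α : R4, Pos A → Pos C → Pos α →
  α * (4 * A * C - B ^ 2) - C = 1 → ∀ i j : Qt A B C α, i * i = -1 → j * j = -1 →
  j * i = -(i * j) → ∀ v : Qt A B C α, Qt.trd v = 0 →
  ∃ X Y Z : R4, X ^ 2 + Y ^ 2 + Z ^ 2 = 4 * Qt.nrd v

/-- E: from `4 α` to `2 α`. -/
def S_E : Prop := ∀ α X Y Z : R4, X ^ 2 + Y ^ 2 + Z ^ 2 = 4 * α →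
  ∃ P Q S : R4, P ^ 2 + Q ^ 2 + S ^ 2 = 2 * α

end Pool.Agent.U14.UF
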