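import Mathlib

set_option autoImplicit false

/-!
# Project UF (helper14): a universal ternary form over `ℚ(√2, √5)` (frozen S18713)

The ring `R4 = ℤ[√2, (1+√5)/2]`, quaternion orders over it, and the statements `S_X` of the packages.
-/

namespace Pool.Agent.U14.UF

/-- the ring `ℤ[λ, τ]` with `λ² = 2λ + 1`, `τ² = τ + 1` (`λ = 1 + √2`, `τ = (1 + √5)/2`):
`⟨a, b, c, d⟩` is `a + b τ + c λ + d λ τ` -/
@[ext] structure R4 where
  a : ℤ
  b : ℤ
  c : ℤ
  d : ℤ
deriving DecidableEq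

namespace R4

instance : Zero R4 := ⟨⟨0, 0, 0, 0⟩⟩
instance : One R4 := ⟨⟨1, 0, 0, 0⟩⟩
instance : Add R4 := ⟨fun x y => ⟨x.a + y.a, x.b + y.b, x.c + y.c, x.d + y.d⟩⟩
instance : Neg R4 := ⟨fun x => ⟨-x.a, -x.b, -x.c, -x.d⟩⟩
instance : Mul R4 := ⟨fun x y => ⟨
  x.a * y.a + x.b * y.b + (x.c * y.c + x.d * y.d),
  x.a * y.b + x.b * y.a + x.b * y.b + (x.c * y.d + x.d * y.c + x.d * y.d),
  x.a * y.c + x.b * y.d + (x.c * y.a + x.d * y.b) + 2 * (x.c * y.c + x.d * y.d),
  x.a * y.d + x.b * y.c + x.b * y.d + (x.c * y.b + x.d * y.a + x.d * y.b) +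
    2 * (x.c * y.d + x.d * y.c + x.d * y.d)⟩⟩

@[simp] theorem zero_a : (0 : R4).a = 0 := rfl
@[simp] theorem zero_b : (0 : R4).b = 0 := rfl
@[simp] theorem zero_c : (0 : R4).c = 0 := rfl
@[simp] theorem zero_d : (0 : R4).d = 0 := rfl
@[simp] theorem one_a : (1 : R4).a = 1 := rfl
@[simp] theorem one_b : (1 : R4).b = 0 := rfl
@[simp] theorem one_c : (1 : R4).c = 0 := rfl
@[simp] theorem one_d : (1 : R4).d = 0 := rfl
@[simp] theorem add_a (x y : R4) : (x + y).a = x.a + y.a := rfl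
@[simp] theorem add_b (x y : R4) : (x + y).b = x.b + y.b := rfl
@[simp] theorem add_c (x y : R4) : (x + y).c = x.c + y.c := rfl
@[simp] theorem add_d (x y : R4) : (x + y).d = x.d + y.d := rfl
@[simp] theorem neg_a (x : R4) : (-x).a = -x.a := rfl
@[simp] theorem neg_b (x : R4) : (-x).b = -x.b := rfl
@[simp] theorem neg_c (x : R4) : (-x).c = -x.c := rfl
@[simp] theorem neg_d (x : R4) : (-x).d = -x.d := rfl
@[simp] theorem mul_a (x y : R4) : (x * y).a = x.a * y.a + x.b * y.b + (x.c * y.c + x.d * y.d) := rfl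
@[simp] theorem mul_b (x y : R4) : (x * y).b =
  x.a * y.b + x.b * y.a + x.b * y.b + (x.c * y.d + x.d * y.c + x.d * y.d) := rfl
@[simp] theorem mul_c (x y : R4) : (x * y).c =
  x.a * y.c + x.b * y.d + (x.c * y.a + x.d * y.b) + 2 * (x.c * y.c + x.d * y.d) := rfl
@[simp] theorem mul_d (x y : R4) : (x * y).d =
  x.a * y.d + x.b * y.c + x.b * y.d + (x.c * y.b + x.d * y.a + x.d * y.b) +
    2 * (x.c * y.d + x.d * y.c + x.d * y.d) := rfl

instance : CommRing R4 where
  add_assoc x y z := by ext <;> simp <;> ring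
  zero_add x := by ext <;> simp
  add_zero x := by ext <;> simp
  add_comm x y := by ext <;> simp <;> ring
  neg_add_cancel x := by ext <;> simp
  mul_assoc x y z := by ext <;> simp <;> ring
  one_mul x := by ext <;> simp
  mul_one x := by ext <;> simp
  zero_mul x := by ext <;> simp
  mul_zero x := by ext <;> simp
  left_distrib x y z := by ext <;> simp <;> ring
  right_distrib x y z := by ext <;> simp <;> ring
  mul_comm x y := by ext <;> simp <;> ring
  nsmul := nsmulRec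
  zsmul := zsmulRec

@[simp] theorem sub_a (x y : R4) : (x - y).a = x.a - y.a := by
  rw [sub_eq_add_neg, add_a, neg_a, sub_eq_add_neg]
@[simp] theorem sub_b (x y : R4) : (x - y).b = x.b - y.b := by
  rw [sub_eq_add_neg, add_b, neg_b, sub_eq_add_neg]
@[simp] theorem sub_c (x y : R4) : (x - y).c = x.c - y.c := by
  rw [sub_eq_add_neg, add_c, neg_c, sub_eq_add_neg]
@[simp] theorem sub_d (x y : R4) : (x - y).d = x.d - y.d := by
  rw [sub_eq_add_neg, add_d, neg_d, sub_eq_add_neg]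

theorem natCast_eq (n : ℕ) : (n : R4) = ⟨n, 0, 0, 0⟩ := by
  induction n with
  | zero => rfl
  | succ n ih => rw [Nat.cast_succ, ih]; ext <;> simp

theorem intCast_eq (n : ℤ) : (n : R4) = ⟨n, 0, 0, 0⟩ := by
  cases n with
  | ofNat n => simpa using natCast_eq n
  | negSucc n =>
    rw [Int.cast_negSucc, natCast_eq]
    ext <;> simp [Int.negSucc_eq]

@[simp] theorem natCast_a (n : ℕ) : (n : R4).a = n := by rw [natCast_eq]
@[simp] theorem natCast_b (n : ℕ) : (n : R4).b = 0 := by rw [natCast_eq]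
@[simp] theorem natCast_c (n : ℕ) : (n : R4).c = 0 := by rw [natCast_eq]
@[simp] theorem natCast_d (n : ℕ) : (n : R4).d = 0 := by rw [natCast_eq]
@[simp] theorem intCast_a (n : ℤ) : (n : R4).a = n := by rw [intCast_eq]
@[simp] theorem intCast_b (n : ℤ) : (n : R4).b = 0 := by rw [intCast_eq]
@[simp] theorem intCast_c (n : ℤ) : (n : R4).c = 0 := by rw [intCast_eq]
@[simp] theorem intCast_d (n : ℤ) : (n : R4).d = 0 := by rw [intCast_eq]
@[simp] theorem ofNat_a (n : ℕ) [n.AtLeastTwo] : (OfNat.ofNat n : R4).a = OfNat.ofNat n := natCast_a n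
@[simp] theorem ofNat_b (n : ℕ) [n.AtLeastTwo] : (OfNat.ofNat n : R4).b = 0 := natCast_b n
@[simp] theorem ofNat_c (n : ℕ) [n.AtLeastTwo] : (OfNat.ofNat n : R4).c = 0 := natCast_c n
@[simp] theorem ofNat_d (n : ℕ) [n.AtLeastTwo] : (OfNat.ofNat n : R4).d = 0 := natCast_d n

/-- `τ = (1 + √5)/2` -/
def tau : R4 := ⟨0, 1, 0, 0⟩
/-- `λ = 1 + √2` -/
def lam : R4 := ⟨0, 0, 1, 0⟩
/-- `√2` -/
def s2 : R4 := ⟨-1, 0, 1, 0⟩
/-- `ϖ = 2 + √2`, totally positive generator of the prime above `2` -/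
def vpi : R4 := ⟨1, 0, 1, 0⟩

/-- the value of `x` at `λ ↦ l`, `τ ↦ t` -/
def ev (l t : ℝ) (x : R4) : ℝ := x.a + x.b * t + x.c * l + x.d * (l * t)

/-- totally positive -/
def Pos (x : R4) : Prop := ∀ l t : ℝ, l ^ 2 = 2 * l + 1 → t ^ 2 = t + 1 → 0 < ev l t x

/-- the conjugation `√2 ↦ -√2` -/
def cj1 (x : R4) : R4 := ⟨x.a + 2 * x.c, x.b + 2 * x.d, -x.c, -x.d⟩
/-- the conjugation `√5 ↦ -√5` -/
def cj2 (x : R4) : R4 := ⟨x.a + x.b, -x.b, x.c + x.d, -x.d⟩
/-- the product of the three other conjugates -/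
def adj (x : R4) : R4 := cj1 x * cj2 x * cj1 (cj2 x)
/-- the norm -/
def nm (x : R4) : ℤ := (x * adj x).a

end R4

open R4

/-! ### Quaternion orders -/

/-- the order with basis `1, i, j, k` over `R4`, `i² = -Cα`, `j² = j - Aα`, `k² = Bk - AC`,
`jk = -Ai`, `ki = C(1 - j)`, `ij = α(B - k)` -/
@[ext] structure Qt (A B C α : R4) where
  t : R4
  x : R4
  y : R4
  z : R4

namespace Qt
variable {A B C α : R4}

instance : Zero (Qt A B C α) := ⟨⟨0, 0, 0, 0⟩⟩
instance : One (Qt A B C α) := ⟨⟨1, 0, 0, 0⟩⟩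
instance : Add (Qt A B C α) := ⟨fun p q => ⟨p.t + q.t, p.x + q.x, p.y + q.y, p.z + q.z⟩⟩
instance : Neg (Qt A B C α) := ⟨fun p => ⟨-p.t, -p.x, -p.y, -p.z⟩⟩
instance : Mul (Qt A B C α) := ⟨fun p q => ⟨
  p.t * q.t - C * α * (p.x * q.x) - A * α * (p.y * q.y) - A * C * (p.z * q.z) + α * B * (p.x * q.y)
    + C * (p.z * q.x) - B * (p.z * q.y),
  p.t * q.x + p.x * q.t - A * (p.y * q.z) + p.y * q.x + A * (p.z * q.y) + B * (p.x * q.z),
  p.t * q.y + p.y * q.t + p.y * q.y - C * (p.z * q.x) + B * (p.z * q.y) + C * (p.x * q.z),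
  p.t * q.z + p.z * q.t + B * (p.z * q.z) - α * (p.x * q.y) + α * (p.y * q.x) + p.z * q.y⟩⟩

@[simp] theorem zero_t : (0 : Qt A B C α).t = 0 := rfl
@[simp] theorem zero_x : (0 : Qt A B C α).x = 0 := rfl
@[simp] theorem zero_y : (0 : Qt A B C α).y = 0 := rfl
@[simp] theorem zero_z : (0 : Qt A B C α).z = 0 := rfl
@[simp] theorem one_t : (1 : Qt A B C α).t = 1 := rfl
@[simp] theorem one_x : (1 : Qt A B C α).x = 0 := rfl
@[simp] theorem one_y : (1 : Qt A B C α).y = 0 := rfl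
@[simp] theorem one_z : (1 : Qt A B C α).z = 0 := rfl
@[simp] theorem add_t (p q : Qt A B C α) : (p + q).t = p.t + q.t := rfl
@[simp] theorem add_x (p q : Qt A B C α) : (p + q).x = p.x + q.x := rfl
@[simp] theorem add_y (p q : Qt A B C α) : (p + q).y = p.y + q.y := rfl
@[simp] theorem add_z (p q : Qt A B C α) : (p + q).z = p.z + q.z := rfl
@[simp] theorem neg_t (p : Qt A B C α) : (-p).t = -p.t := rfl
@[simp] theorem neg_x (p : Qt A B C α) : (-p).x = -p.x := rfl
@[simp] theorem neg_y (p : Qt A B C α) : (-p).y = -p.y := rfl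
@[simp] theorem neg_z (p : Qt A B C α) : (-p).z = -p.z := rfl
@[simp] theorem mul_t (p q : Qt A B C α) : (p * q).t =
  p.t * q.t - C * α * (p.x * q.x) - A * α * (p.y * q.y) - A * C * (p.z * q.z) + α * B * (p.x * q.y)
    + C * (p.z * q.x) - B * (p.z * q.y) := rfl
@[simp] theorem mul_x (p q : Qt A B C α) : (p * q).x =
  p.t * q.x + p.x * q.t - A * (p.y * q.z) + p.y * q.x + A * (p.z * q.y) + B * (p.x * q.z) := rfl
@[simp] theorem mul_y (p q : Qt A B C α) : (p * q).y =
  p.t * q.y + p.y * q.t + p.y * q.y - C * (p.z * q.x) + B * (p.z * q.y) + C * (p.x * q.z) := rfl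
@[simp] theorem mul_z (p q : Qt A B C α) : (p * q).z =
  p.t * q.z + p.z * q.t + B * (p.z * q.z) - α * (p.x * q.y) + α * (p.y * q.x) + p.z * q.y := rfl

instance : Ring (Qt A B C α) where
  add_assoc x y z := by ext1 <;> simp only [add_t, add_x, add_y, add_z] <;> ring
  zero_add x := by ext1 <;> simp
  add_zero x := by ext1 <;> simp
  add_comm x y := by ext1 <;> simp only [add_t, add_x, add_y, add_z] <;> ring
  neg_add_cancel x := by ext1 <;> simp
  mul_assoc x y z := by ext1 <;> simp only [mul_t, mul_x, mul_y, mul_z] <;> ring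
  one_mul x := by ext1 <;> simp
  mul_one x := by ext1 <;> simp
  zero_mul x := by ext1 <;> simp
  mul_zero x := by ext1 <;> simp
  left_distrib x y z := by
    ext1 <;> simp only [mul_t, mul_x, mul_y, mul_z, add_t, add_x, add_y, add_z] <;> ring
  right_distrib x y z := by
    ext1 <;> simp only [mul_t, mul_x, mul_y, mul_z, add_t, add_x, add_y, add_z] <;> ring
  nsmul := nsmulRec
  zsmul := zsmulRec

@[simp] theorem sub_t (p q : Qt A B C α) : (p - q).t = p.t - q.t := by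
  rw [sub_eq_add_neg, add_t, neg_t, sub_eq_add_neg]
@[simp] theorem sub_x (p q : Qt A B C α) : (p - q).x = p.x - q.x := by
  rw [sub_eq_add_neg, add_x, neg_x, sub_eq_add_neg]
@[simp] theorem sub_y (p q : Qt A B C α) : (p - q).y = p.y - q.y := by
  rw [sub_eq_add_neg, add_y, neg_y, sub_eq_add_neg]
@[simp] theorem sub_z (p q : Qt A B C α) : (p - q).z = p.z - q.z := by
  rw [sub_eq_add_neg, add_z, neg_z, sub_eq_add_neg]

/-- the embedding of the centre -/
def cst (r : R4) : Qt A B C α := ⟨r, 0, 0, 0⟩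

/-- the standard involution -/
def conj (p : Qt A B C α) : Qt A B C α := ⟨p.t + p.y + B * p.z, -p.x, -p.y, -p.z⟩

/-- the reduced trace -/
def trd (p : Qt A B C α) : R4 := 2 * p.t + p.y + B * p.z

/-- the reduced norm -/
def nrd (p : Qt A B C α) : R4 :=
  p.t ^ 2 + p.t * p.y + B * (p.t * p.z) + C * α * p.x ^ 2 + A * α * p.y ^ 2 + A * C * p.z ^ 2
    - α * B * (p.x * p.y) - C * (p.x * p.z) + B * (p.y * p.z)

theorem mul_conj (p : Qt A B C α) : p * conj p = cst (nrd p) := by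
  ext1 <;> simp only [mul_t, mul_x, mul_y, mul_z, conj, cst, nrd] <;> ring

theorem conj_mul (p : Qt A B C α) : conj p * p = cst (nrd p) := by
  ext1 <;> simp only [mul_t, mul_x, mul_y, mul_z, conj, cst, nrd] <;> ring

theorem add_conj (p : Qt A B C α) : p + conj p = cst (trd p) := by
  ext1 <;> simp only [add_t, add_x, add_y, add_z, conj, cst, trd] <;> ring

theorem conj_rev (p q : Qt A B C α) : conj (p * q) = conj q * conj p := by
  ext1 <;> simp only [mul_t, mul_x, mul_y, mul_z, conj] <;> ring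

theorem nrd_mul (p q : Qt A B C α) : nrd (p * q) = nrd p * nrd q := by
  simp only [nrd, mul_t, mul_x, mul_y, mul_z]; ring

theorem cst_mul (r : R4) (p : Qt A B C α) : cst r * p = ⟨r * p.t, r * p.x, r * p.y, r * p.z⟩ := by
  ext1 <;> simp only [mul_t, mul_x, mul_y, mul_z, cst] <;> ring

theorem cst_comm (r : R4) (p : Qt A B C α) : cst r * p = p * cst r := by
  ext1 <;> simp only [mul_t, mul_x, mul_y, mul_z, cst] <;> ring

theorem nrd_cst (r : R4) : nrd (cst r : Qt A B C α) = r ^ 2 := by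
  simp only [nrd, cst]; ring

/-- the form is a sum of squares after multiplication by `4 α C` -/
theorem four_nrd (h : α * (4 * A * C - B ^ 2) - C = 1) (p : Qt A B C α) :
    4 * α * C * nrd p = α * C * (2 * p.t + p.y + B * p.z) ^ 2 +
      (2 * α * C * p.x - α * B * p.y - C * p.z) ^ 2 + α * p.y ^ 2 + C * p.z ^ 2 := by
  simp only [nrd]
  linear_combination (α * p.y ^ 2 + C * p.z ^ 2) * h

end Qt

end Pool.Agent.U14.UF
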